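import Mathlib
import Pool.Agent.H990R2.SF.Mat

/-!
Graphic matroids: correlation of the independent sets up to the factor `4/3`, and exactly for
edges with a common endpoint; the same for the spanning sets of the dual matroids.
-/

set_option linter.unusedSectionVars false
set_option linter.unusedSimpArgs false

namespace Pool.Agent.Results.MP_c72610_co.GraphicFourThirds

open Finset

/-- `F` is the edge set of a forest of the multigraph `ends` (loops and parallel edges allowed). -/
def IsForest {V α : Type*} (ends : α → Sym2 V) (F : Finset α) : Prop :=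
  (∀ i ∈ F, ¬ (ends i).IsDiag) ∧ Set.InjOn ends (F : Set α) ∧
    (SimpleGraph.fromEdgeSet (ends '' (F : Set α))).IsAcyclic

/-- `M` is the cycle matroid of the multigraph with edge set `α` and endpoints `ends`. -/
def IsCycleMatroid {V α : Type*} (M : Matroid α) (ends : α → Sym2 V) : Prop :=
  M.E = Set.univ ∧ ∀ F : Finset α, M.Indep (F : Set α) ↔ IsForest ends F

open Classical in
/-- `i_U(M; z)`. -/
noncomputable def indSum {α : Type*} [Fintype α] (M : Matroid α) (z : α → ℝ)
    (U : Finset α) : ℝ :=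
  ∑ A : Finset α, if M.Indep (A : Set α) ∧ U ⊆ A then ∏ x ∈ A, z x else 0

open Classical in
/-- `s_U(M; z)`. -/
noncomputable def spanSum {α : Type*} [Fintype α] (M : Matroid α) (z : α → ℝ)
    (U : Finset α) : ℝ :=
  ∑ A : Finset α, if M.Spanning (A : Set α) ∧ U ⊆ A then ∏ x ∈ A, z x else 0

open Classical in
/-- The same sum for any family of sets. -/
noncomputable def famSum {α : Type*} [Fintype α] (Q : Finset α → Prop) (z : α → ℝ)
    (U : Finset α) : ℝ :=
  ∑ A : Finset α, if Q A ∧ U ⊆ A then ∏ x ∈ A, z x else 0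

lemma corr {α : Type*} [Fintype α] [DecidableEq α] (C : ℝ) (hC : 1 ≤ C)
    (Q : Finset α → Prop) (y : α → ℝ) (hy : ∀ x, 0 ≤ y x) (e f : α)
    (h : H990SF.RForm C Q y e f) :
    famSum Q y {e, f} * famSum Q y ∅ ≤ C * (famSum Q y {e} * famSum Q y {f}) := by
  classical
  have h0 := H990SF.corr_of_RForm C hC Q y hy e f h
  unfold famSum
  refine le_trans (le_of_eq ?_) (le_trans h0 (le_of_eq ?_))
  · refine congrArg₂ (fun s t => s * t) ?_ ?_
    · exact Finset.sum_congr rfl fun A _ => H990SF.ite_iffM
        (and_congr_right fun _ => by rw [Finset.insert_subset_iff, Finset.singleton_subset_iff]) _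
    · exact Finset.sum_congr rfl fun A _ => H990SF.ite_iffM
        (and_iff_left (Finset.empty_subset A)) _
  · refine congrArg (fun s => C * s) (congrArg₂ (fun s t => s * t) ?_ ?_)
    · exact Finset.sum_congr rfl fun A _ => H990SF.ite_iffM
        (and_congr_right fun _ => Finset.singleton_subset_iff.symm) _
    · exact Finset.sum_congr rfl fun A _ => H990SF.ite_iffM
        (and_congr_right fun _ => Finset.singleton_subset_iff.symm) _

lemma dual_span {V α : Type*} [Fintype α] [DecidableEq α] (M : Matroid α) (ends : α → Sym2 V)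
    (hM : IsCycleMatroid M ends) (A : Finset α) :
    M✶.Spanning (A : Set α) ↔ IsForest ends Aᶜ := by
  rw [Matroid.spanning_iff_compl_coindep (by rw [Matroid.dual_ground, hM.1]; simp),
    Matroid.coindep_def, Matroid.dual_dual, Matroid.dual_ground, hM.1, ← hM.2,
    Finset.coe_compl, Set.compl_eq_univ_sdiff]

/-- **Graphic matroids.** Let `M` be the cycle matroid of a finite multigraph, `z > 0`, `e ≠ f`.
Then `i_ef i ≤ (4/3) i_e i_f` in `M` and `s_ef s ≤ (4/3) s_e s_f` in the dual of `M`; if `e` and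
`f` have a common endpoint, both inequalities hold with `1` in place of `4/3`. -/
theorem result {V α : Type*} [Fintype V] [Fintype α] [DecidableEq α] (M : Matroid α) (ends : α → Sym2 V)
    (hM : IsCycleMatroid M ends) (z : α → ℝ) (hz : ∀ x, 0 < z x) (e f : α) (hef : e ≠ f) :
    (indSum M z {e, f} * indSum M z ∅ ≤ 4 / 3 * (indSum M z {e} * indSum M z {f})
      ∧ spanSum M✶ z {e, f} * spanSum M✶ z ∅ ≤ 4 / 3 * (spanSum M✶ z {e} * spanSum M✶ z {f}))
    ∧ ((∃ v : V, v ∈ ends e ∧ v ∈ ends f) →
      indSum M z {e, f} * indSum M z ∅ ≤ indSum M z {e} * indSum M z {f}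
      ∧ spanSum M✶ z {e, f} * spanSum M✶ z ∅ ≤ spanSum M✶ z {e} * spanSum M✶ z {f}) := by
  classical
  have hI : ∀ A : Finset α, M.Indep (A : Set α) ↔
      H990SF.IsF (H990SF.fa ends) (H990SF.fb ends) A := fun A =>
    (hM.2 A).trans (H990SF.IsF_iff_M ends A).symm
  have hS : ∀ A : Finset α, M✶.Spanning (A : Set α) ↔
      H990SF.IsF (H990SF.fa ends) (H990SF.fb ends) Aᶜ := fun A =>
    (dual_span M ends hM A).trans (H990SF.IsF_iff_M ends Aᶜ).symm
  have hz' : ∀ x, 0 ≤ (z x)⁻¹ := fun x => (inv_pos.2 (hz x)).le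
  have hIQ : (fun A : Finset α => M.Indep (A : Set α)) =
      H990SF.IsF (H990SF.fa ends) (H990SF.fb ends) := by
    funext A; exact propext (hI A)
  have key : ∀ C : ℝ, 1 ≤ C →
      (∀ y : α → ℝ, (∀ x, 0 ≤ y x) →
        H990SF.RForm C (H990SF.IsF (H990SF.fa ends) (H990SF.fb ends)) y e f) →
      indSum M z {e, f} * indSum M z ∅ ≤ C * (indSum M z {e} * indSum M z {f})
      ∧ spanSum M✶ z {e, f} * spanSum M✶ z ∅ ≤ C * (spanSum M✶ z {e} * spanSum M✶ z {f}) := by
    intro C hC hR
    constructor
    · have h1 : H990SF.RForm C (fun A : Finset α => M.Indep (A : Set α)) z e f := by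
        rw [hIQ]; exact hR z fun x => (hz x).le
      have h2 := corr C hC _ z (fun x => (hz x).le) e f h1
      exact h2
    · have h1 : H990SF.RForm C (fun A : Finset α => M✶.Spanning (A : Set α)) z e f :=
        H990SF.RForm_compl C (H990SF.IsF (H990SF.fa ends) (H990SF.fb ends)) _ hS z hz e f
          (hR _ hz')
      have h2 := corr C hC _ z (fun x => (hz x).le) e f h1
      exact h2
  refine ⟨key (4 / 3) (by norm_num) fun y hy =>
    H990SF.RForm_four_thirds _ _ y hy e f hef, ?_⟩
  rintro ⟨v, hve, hvf⟩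
  have h := key 1 le_rfl fun y hy =>
    H990SF.RForm_star _ _ y hy e f hef v ((H990SF.mem_iff_ea_eb v (ends e)).1 hve)
      ((H990SF.mem_iff_ea_eb v (ends f)).1 hvf)
  rw [one_mul, one_mul] at h
  exact h

end Pool.Agent.Results.MP_c72610_co.GraphicFourThirds
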